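import Mathlib
import Pool.Agent.Helper52.VBDefs
import Pool.Agent.Helper52.VBBasic

set_option autoImplicit false

open Pool.Agent.Helper52.VB

namespace Pool.Agent.Helper69.Kept.AllOrdersIffSemigroup

/-- For `k ≥ 2`, a `VB(v, k, l)` design exists for every `v ≥ 2` iff `l` is a sum of numbers of the
form `a * (k - a)` with `1 ≤ a ≤ k - 1`. -/
theorem result (k : ℕ) (l : ℕ) :
    (∀ v : ℕ, 2 ≤ v → ∃ D : Multiset (Multiset (Fin v)), IsVB v k l D) ↔
      l ∈ AddSubmonoid.closure {n : ℕ | ∃ a, 1 ≤ a ∧ a < k ∧ n = a * (k - a)} := by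
  constructor
  · intro h
    obtain ⟨D, hB, hc⟩ := h 2 le_rfl
    rw [← hc 0 1 (by decide), conc]
    apply AddSubmonoid.multiset_sum_mem
    intro n hn
    rw [Multiset.mem_map] at hn
    obtain ⟨B, hBD, rfl⟩ := hn
    obtain ⟨hcard, hne⟩ := hB B hBD
    have h1 : B.count 0 + B.count 1 = k := by
      rw [← hcard, ← Multiset.sum_count_eq_card (s := Finset.univ) (fun a _ => Finset.mem_univ a),
        Fin.sum_univ_two]
    have h2 : 1 ≤ B.count 0 := by
      by_contra hcon
      apply hne 1
      rw [Multiset.eq_replicate]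
      refine ⟨hcard, fun b hb => ?_⟩
      have h3 : B.count 0 = 0 := by omega
      rw [Multiset.count_eq_zero] at h3
      match b, hb with
      | 0, hb => exact absurd hb h3
      | 1, _ => rfl
    have h2' : 1 ≤ B.count 1 := by
      by_contra hcon
      apply hne 0
      rw [Multiset.eq_replicate]
      refine ⟨hcard, fun b hb => ?_⟩
      have h3 : B.count 1 = 0 := by omega
      rw [Multiset.count_eq_zero] at h3
      match b, hb with
      | 1, hb => exact absurd hb h3
      | 0, _ => rfl
    refine AddSubmonoid.subset_closure ⟨B.count 0, h2, by omega, ?_⟩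
    congr 1
    omega
  · intro h v _
    obtain ⟨D, hD, hD'⟩ := complete (V := Fin v) (k := k) (l := l) 0 (by simp)
        (fun i j _ => ⟨l, h, by simp [conc_zero]⟩)
    exact ⟨D, hD, hD'⟩

end Pool.Agent.Helper69.Kept.AllOrdersIffSemigroup
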